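import Mathlib

/-!
Smallest graphs of girth 4 and of girth 6 with half of the vertices of degree 2 and half of
degree 3 can have two adjacent vertices of degree 2: subdivide twice each edge of a perfect
matching of `K4`, respectively of `K33`.
-/

open Finset

namespace Pool.Agent.Results.MP_6c91b3_co.AdjacentDegTwo

/-- Degree of a vertex. -/
noncomputable def deg {n : ℕ} (G : SimpleGraph (Fin n)) (v : Fin n) : ℕ := (G.neighborSet v).ncard

/-- Exactly half of the vertices have degree 2 and exactly half have degree 3. -/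
def InD23 {n : ℕ} (G : SimpleGraph (Fin n)) : Prop :=
  2 * {v | deg G v = 2}.ncard = n ∧ 2 * {v | deg G v = 3}.ncard = n

/-- A graph of the class, of girth `g`, with the least possible number of vertices. -/
def Extremal (g : ℕ) {n : ℕ} (G : SimpleGraph (Fin n)) : Prop :=
  InD23 G ∧ G.girth = g ∧ ∀ (m : ℕ) (H : SimpleGraph (Fin m)), InD23 H → H.girth = g → n ≤ m

section general

variable {V : Type*} {G : SimpleGraph V}

theorem girth_le3 {x y z : V} (h1 : G.Adj x y) (h2 : G.Adj y z) (h3 : G.Adj z x) :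
    G.girth ≤ 3 := by
  have := h1.ne; have := h2.ne; have := h3.ne
  have hc : (SimpleGraph.Walk.cons h1 (.cons h2 (.cons h3 .nil))).IsCycle := by
    simp [SimpleGraph.Walk.isCycle_def, SimpleGraph.Walk.isTrail_def]
    grind
  simpa using SimpleGraph.girth_le_length hc

theorem girth_le4 {x y z w : V} (h1 : G.Adj x y) (h2 : G.Adj y z) (h3 : G.Adj z w)
    (h4 : G.Adj w x) (n1 : x ≠ z) (n2 : y ≠ w) : G.girth ≤ 4 := by
  have := h1.ne; have := h2.ne; have := h3.ne; have := h4.ne
  have hc : (SimpleGraph.Walk.cons h1 (.cons h2 (.cons h3 (.cons h4 .nil)))).IsCycle := by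
    simp [SimpleGraph.Walk.isCycle_def, SimpleGraph.Walk.isTrail_def]
    grind
  simpa using SimpleGraph.girth_le_length hc

theorem girth_le5 {x y z w t : V} (h1 : G.Adj x y) (h2 : G.Adj y z) (h3 : G.Adj z w)
    (h4 : G.Adj w t) (h5 : G.Adj t x) : G.girth ≤ 5 := by
  have := h1.ne; have := h2.ne; have := h3.ne; have := h4.ne; have := h5.ne
  by_cases n1 : x = z
  · subst n1; exact (girth_le3 h3 h4 h5).trans (by norm_num)
  by_cases n2 : x = w
  · subst n2; exact (girth_le3 h1 h2 h3).trans (by norm_num)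
  by_cases n3 : y = w
  · subst n3; exact (girth_le3 h1 h4 h5).trans (by norm_num)
  by_cases n4 : y = t
  · subst n4; exact (girth_le3 h2 h3 h4).trans (by norm_num)
  by_cases n5 : z = t
  · subst n5; exact (girth_le3 h1 h2 h5).trans (by norm_num)
  have hc : (SimpleGraph.Walk.cons h1 (.cons h2 (.cons h3 (.cons h4 (.cons h5 .nil))))).IsCycle := by
    simp [SimpleGraph.Walk.isCycle_def, SimpleGraph.Walk.isTrail_def]
    grind
  simpa using SimpleGraph.girth_le_length hc

theorem girth_le6 {x y z w t s : V} (h1 : G.Adj x y) (h2 : G.Adj y z) (h3 : G.Adj z w)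
    (h4 : G.Adj w t) (h5 : G.Adj t s) (h6 : G.Adj s x) (hn : [x, y, z, w, t, s].Nodup) :
    ¬ G.IsAcyclic ∧ G.girth ≤ 6 := by
  have hc : (SimpleGraph.Walk.cons h1 (.cons h2 (.cons h3 (.cons h4 (.cons h5
      (.cons h6 .nil)))))).IsCycle := by
    simp [SimpleGraph.Walk.isCycle_def, SimpleGraph.Walk.isTrail_def]
    simp at hn
    grind
  exact ⟨fun h => h _ hc, by simpa using SimpleGraph.girth_le_length hc⟩

theorem girth_ne3 (h : ∀ x y, G.Adj x y → ∀ z, G.Adj y z → ¬ G.Adj z x)
    (hG : ¬ G.IsAcyclic) : G.girth ≠ 3 := by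
  intro hg
  obtain ⟨a, w, -, hw⟩ := SimpleGraph.exists_girth_eq_length.2 hG
  rw [hg] at hw
  have h0 := w.adj_getVert_succ (i := 0) (by omega)
  have h1 := w.adj_getVert_succ (i := 1) (by omega)
  have h2 := w.adj_getVert_succ (i := 2) (by omega)
  have e : w.getVert (2 + 1) = w.getVert 0 := by
    rw [w.getVert_zero, show 2 + 1 = w.length by omega, w.getVert_length]
  rw [e] at h2
  exact h _ _ h0 _ h1 h2

theorem girth_ne4 (h : ∀ x y, G.Adj x y → ∀ z, G.Adj y z → x ≠ z → ∀ t, G.Adj z t → y ≠ t →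
    ¬ G.Adj t x) (hG : ¬ G.IsAcyclic) : G.girth ≠ 4 := by
  intro hg
  obtain ⟨a, w, hc, hw⟩ := SimpleGraph.exists_girth_eq_length.2 hG
  rw [hg] at hw
  have h0 := w.adj_getVert_succ (i := 0) (by omega)
  have h1 := w.adj_getVert_succ (i := 1) (by omega)
  have h2 := w.adj_getVert_succ (i := 2) (by omega)
  have h3 := w.adj_getVert_succ (i := 3) (by omega)
  have e : w.getVert (3 + 1) = w.getVert 0 := by
    rw [w.getVert_zero, show 3 + 1 = w.length by omega, w.getVert_length]
  rw [e] at h3
  have n1 := hc.getVert_sub_one_ne_getVert_add_one (i := 1) (by omega)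
  have n2 := hc.getVert_sub_one_ne_getVert_add_one (i := 2) (by omega)
  exact h _ _ h0 _ h1 n1 _ h2 n2 h3

theorem girth_ne5 (h : ∀ x y, G.Adj x y → ∀ z, G.Adj y z → ∀ t, G.Adj z t →
    ∀ s, G.Adj t s → ¬ G.Adj s x) (hG : ¬ G.IsAcyclic) : G.girth ≠ 5 := by
  intro hg
  obtain ⟨a, w, -, hw⟩ := SimpleGraph.exists_girth_eq_length.2 hG
  rw [hg] at hw
  have h0 := w.adj_getVert_succ (i := 0) (by omega)
  have h1 := w.adj_getVert_succ (i := 1) (by omega)
  have h2 := w.adj_getVert_succ (i := 2) (by omega)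
  have h3 := w.adj_getVert_succ (i := 3) (by omega)
  have h4 := w.adj_getVert_succ (i := 4) (by omega)
  have e : w.getVert (4 + 1) = w.getVert 0 := by
    rw [w.getVert_zero, show 4 + 1 = w.length by omega, w.getVert_length]
  rw [e] at h4
  exact h _ _ h0 _ h1 _ h2 _ h3 h4

end general

theorem deg_eq {n : ℕ} (G : SimpleGraph (Fin n)) [DecidableRel G.Adj] (v : Fin n) :
    deg G v = G.degree v := by
  rw [deg, ← SimpleGraph.card_neighborFinset_eq_degree, ← Set.ncard_coe_finset]
  simp

theorem inD23_iff {n : ℕ} (G : SimpleGraph (Fin n)) [DecidableRel G.Adj] :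
    InD23 G ↔ 2 * (univ.filter (fun v => G.degree v = 2)).card = n ∧
      2 * (univ.filter (fun v => G.degree v = 3)).card = n := by
  rw [InD23, ← Set.ncard_coe_finset, ← Set.ncard_coe_finset]
  simp [deg_eq]

theorem structure_lemma {m : ℕ} (H : SimpleGraph (Fin m)) (hD : InD23 H) (hm : m ≠ 0) :
    m % 4 = 0 ∧ (∀ x y, H.Adj x y → ∃ z, H.Adj x z ∧ z ≠ y) ∧
      ∃ u v a b c d, H.Adj u v ∧ H.Adj u a ∧ H.Adj u b ∧ H.Adj v c ∧ H.Adj v d ∧
        a ≠ b ∧ a ≠ v ∧ b ≠ v ∧ c ≠ d ∧ c ≠ u ∧ d ≠ u := by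
  classical
  rw [inD23_iff] at hD
  set A := univ.filter (fun v => H.degree v = 2) with hA
  set B := univ.filter (fun v => H.degree v = 3) with hB
  have hdisj : Disjoint A B := by
    rw [disjoint_left]
    intro x hx hx'
    rw [hA, mem_filter] at hx
    rw [hB, mem_filter] at hx'
    omega
  have hun : A ∪ B = univ := by
    apply eq_univ_of_card
    rw [card_union_of_disjoint hdisj, Fintype.card_fin]
    omega
  have hdeg : ∀ x, H.degree x = 2 ∨ H.degree x = 3 := by
    intro x
    have : x ∈ A ∪ B := by rw [hun]; exact mem_univ x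
    simpa [hA, hB] using this
  have hsum := H.sum_degrees_eq_twice_card_edges
  rw [← hun, sum_union hdisj,
    sum_congr rfl (g := fun _ => 2) (fun x hx => (mem_filter.1 hx).2),
    sum_congr rfl (g := fun _ => 3) (fun x hx => (mem_filter.1 hx).2)] at hsum
  simp only [sum_const, smul_eq_mul] at hsum
  change A.card * 2 + B.card * 3 = _ at hsum
  have third : ∀ x y, H.Adj x y → H.degree x = 3 →
      ∃ a b, H.Adj x a ∧ H.Adj x b ∧ a ≠ b ∧ a ≠ y ∧ b ≠ y := by
    intro x y hxy hx
    have h1 : ((H.neighborFinset x).erase y).card = 2 := by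
      rw [card_erase_of_mem (by simpa using hxy), SimpleGraph.card_neighborFinset_eq_degree, hx]
    obtain ⟨a, b, hab, he⟩ := card_eq_two.1 h1
    have ha : a ∈ (H.neighborFinset x).erase y := by rw [he]; simp
    have hb : b ∈ (H.neighborFinset x).erase y := by rw [he]; simp
    simp only [mem_erase, SimpleGraph.mem_neighborFinset] at ha hb
    exact ⟨a, b, ha.2, hb.2, hab, ha.1, hb.1⟩
  refine ⟨by omega, ?_, ?_⟩
  · intro x y hxy
    have h1 : 0 < ((H.neighborFinset x).erase y).card := by
      rw [card_erase_of_mem (by simpa using hxy), SimpleGraph.card_neighborFinset_eq_degree]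
      have := hdeg x
      omega
    obtain ⟨z, hz⟩ := card_pos.1 h1
    simp only [mem_erase, SimpleGraph.mem_neighborFinset] at hz
    exact ⟨z, hz.2, hz.1⟩
  · have : ∃ u ∈ B, ∃ v ∈ B, H.Adj u v := by
      by_contra hno
      push Not at hno
      have := card_mul_le_card_mul (s := B) (t := A) (m := 3) (n := 2) H.Adj
        (by
          intro x hx
          have hx3 : H.degree x = 3 := (mem_filter.1 hx).2
          rw [← hx3, ← SimpleGraph.card_neighborFinset_eq_degree]
          apply card_le_card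
          intro y hy
          rw [SimpleGraph.mem_neighborFinset] at hy
          rw [mem_bipartiteAbove]
          refine ⟨?_, hy⟩
          have : y ∈ A ∪ B := by rw [hun]; exact mem_univ y
          rcases mem_union.1 this with h | h
          · exact h
          · exact absurd hy (hno x hx y h))
        (by
          intro y hy
          have hy2 : H.degree y = 2 := (mem_filter.1 hy).2
          rw [← hy2, ← SimpleGraph.card_neighborFinset_eq_degree]
          apply card_le_card
          intro x hx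
          rw [mem_bipartiteBelow] at hx
          rw [SimpleGraph.mem_neighborFinset]
          exact hx.2.symm)
      omega
    obtain ⟨u, hu, v, hv, huv⟩ := this
    obtain ⟨a, b, h1, h2, h3, h4, h5⟩ := third u v huv (mem_filter.1 hu).2
    obtain ⟨c, d, h6, h7, h8, h9, h10⟩ := third v u huv.symm (mem_filter.1 hv).2
    exact ⟨u, v, a, b, c, d, huv, h1, h2, h6, h7, h3, h4, h5, h8, h9, h10⟩

theorem ne_zero_of_girth {m : ℕ} (H : SimpleGraph (Fin m)) (hg : H.girth ≠ 0) : m ≠ 0 := by
  rintro rfl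
  apply hg
  rw [SimpleGraph.girth_eq_zero]
  intro v
  exact v.elim0

theorem lower4 (m : ℕ) (H : SimpleGraph (Fin m)) (hD : InD23 H) (hg : H.girth = 4) : 8 ≤ m := by
  obtain ⟨hm, -, u, v, a, b, c, d, h0, h1, h2, h3, h4, n1, n2, n3, n4, n5, n6⟩ :=
    structure_lemma H hD (ne_zero_of_girth H (by omega))
  have T3 : ∀ {x y z}, H.Adj x y → H.Adj y z → H.Adj z x → False := fun a b c => by
    have := girth_le3 a b c
    omega
  have hn : [u, v, a, b, c].Nodup := by
    have := h0.ne; have := h1.ne; have := h2.ne; have := h3.ne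
    have : a ≠ c := by rintro rfl; exact T3 h0 h3 h1.symm
    have : b ≠ c := by rintro rfl; exact T3 h0 h3 h2.symm
    simp
    grind
  have := hn.length_le_card
  simp at this
  omega

theorem lower6 (m : ℕ) (H : SimpleGraph (Fin m)) (hD : InD23 H) (hg : H.girth = 6) : 12 ≤ m := by
  obtain ⟨hm, hx, u, v, a, b, c, d, h0, h1, h2, h3, h4, n1, n2, n3, n4, n5, n6⟩ :=
    structure_lemma H hD (ne_zero_of_girth H (by omega))
  have T3 : ∀ {x y z}, H.Adj x y → H.Adj y z → H.Adj z x → False := fun a b c => by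
    have := girth_le3 a b c
    omega
  have T4 : ∀ {x y z w}, H.Adj x y → H.Adj y z → H.Adj z w → H.Adj w x → x ≠ z → y ≠ w →
      False := fun a b c d e f => by
    have := girth_le4 a b c d e f
    omega
  have T5 : ∀ {x y z w t}, H.Adj x y → H.Adj y z → H.Adj z w → H.Adj w t → H.Adj t x →
      False := fun a b c d e => by
    have := girth_le5 a b c d e
    omega
  obtain ⟨a', k1, l1⟩ := hx a u h1.symm
  obtain ⟨b', k2, l2⟩ := hx b u h2.symm
  obtain ⟨c', k3, l3⟩ := hx c v h3.symm
  have hn : [u, v, a, b, c, d, a', b', c'].Nodup := by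
    have := h0.ne; have := h1.ne; have := h2.ne; have := h3.ne; have := h4.ne
    have := k1.ne; have := k2.ne; have := k3.ne
    have : a ≠ c := by rintro rfl; exact T3 h0 h3 h1.symm
    have : b ≠ c := by rintro rfl; exact T3 h0 h3 h2.symm
    have : a ≠ d := by rintro rfl; exact T3 h0 h4 h1.symm
    have : b ≠ d := by rintro rfl; exact T3 h0 h4 h2.symm
    have : v ≠ a' := by rintro rfl; exact T3 h1 k1 h0.symm
    have : v ≠ b' := by rintro rfl; exact T3 h2 k2 h0.symm
    have : u ≠ c' := by rintro rfl; exact T3 h3 k3 h0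
    have : b ≠ a' := by rintro rfl; exact T3 h1 k1 h2.symm
    have : a ≠ b' := by rintro rfl; exact T3 h2 k2 h1.symm
    have : d ≠ c' := by rintro rfl; exact T3 h3 k3 h4.symm
    have : c ≠ a' := by rintro rfl; exact T4 h1 k1 h3.symm h0.symm n5.symm n2
    have : d ≠ a' := by rintro rfl; exact T4 h1 k1 h4.symm h0.symm n6.symm n2
    have : c ≠ b' := by rintro rfl; exact T4 h2 k2 h3.symm h0.symm n5.symm n3
    have : d ≠ b' := by rintro rfl; exact T4 h2 k2 h4.symm h0.symm n6.symm n3
    have : a ≠ c' := by rintro rfl; exact T4 h3 k3 h1.symm h0 n2.symm n5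
    have : b ≠ c' := by rintro rfl; exact T4 h3 k3 h2.symm h0 n3.symm n5
    have : a' ≠ b' := by rintro rfl; exact T4 h1 k1 k2.symm h2.symm l1.symm n1
    have : a' ≠ c' := by rintro rfl; exact T5 h1 k1 k3.symm h3.symm h0.symm
    have : b' ≠ c' := by rintro rfl; exact T5 h2 k2 k3.symm h3.symm h0.symm
    simp
    grind
  have := hn.length_le_card
  simp at this
  omega

def e4 : List (Fin 8 × Fin 8) :=
  [(0, 2), (0, 3), (1, 2), (1, 3), (0, 4), (4, 5), (5, 1), (2, 6), (6, 7), (7, 3)]

def G4 : SimpleGraph (Fin 8) := SimpleGraph.fromRel (fun u v => (u, v) ∈ e4)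

instance : DecidableRel G4.Adj := fun u v =>
  decidable_of_iff (u ≠ v ∧ ((u, v) ∈ e4 ∨ (v, u) ∈ e4)) Iff.rfl

def e6 : List (Fin 12 × Fin 12) :=
  [(0, 4), (0, 5), (1, 3), (1, 5), (2, 3), (2, 4), (0, 6), (6, 7), (7, 3), (1, 8), (8, 9), (9, 4),
    (2, 10), (10, 11), (11, 5)]

def G6 : SimpleGraph (Fin 12) := SimpleGraph.fromRel (fun u v => (u, v) ∈ e6)

instance : DecidableRel G6.Adj := fun u v =>
  decidable_of_iff (u ≠ v ∧ ((u, v) ∈ e6 ∨ (v, u) ∈ e6)) Iff.rfl

theorem girth4 : G4.girth = 4 := by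
  have hG : ¬ G4.IsAcyclic := fun h => h
    (SimpleGraph.Walk.cons (show G4.Adj 0 2 by decide) (.cons (show G4.Adj 2 1 by decide)
      (.cons (show G4.Adj 1 3 by decide) (.cons (show G4.Adj 3 0 by decide) .nil))))
    (by simp [SimpleGraph.Walk.isCycle_def, SimpleGraph.Walk.isTrail_def])
  have h4 := girth_le4 (G := G4) (x := 0) (y := 2) (z := 1) (w := 3)
    (by decide) (by decide) (by decide) (by decide) (by decide) (by decide)
  have h3 := SimpleGraph.three_le_girth hG
  have n3 := girth_ne3 (G := G4) (by decide +kernel) hG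
  omega

theorem girth6 : G6.girth = 6 := by
  obtain ⟨hG, h6⟩ := girth_le6 (G := G6) (x := 0) (y := 4) (z := 2) (w := 3) (t := 1) (s := 5)
    (by decide) (by decide) (by decide) (by decide) (by decide) (by decide) (by decide)
  have h3 := SimpleGraph.three_le_girth hG
  have n3 := girth_ne3 (G := G6) (by decide +kernel) hG
  have n4 := girth_ne4 (G := G6) (by decide +kernel) hG
  have n5 := girth_ne5 (G := G6) (by decide +kernel) hG
  omega

theorem result : ∀ g ∈ ({4, 6} : Finset ℕ), ∃ (n : ℕ) (G : SimpleGraph (Fin n)),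
    Extremal g G ∧ ∃ u v, G.Adj u v ∧ deg G u = 2 ∧ deg G v = 2 := by
  intro g hg
  simp only [mem_insert, mem_singleton] at hg
  rcases hg with rfl | rfl
  · refine ⟨8, G4, ⟨?_, girth4, lower4⟩, 4, 5, by decide, ?_, ?_⟩
    · rw [inD23_iff]; decide +kernel
    · rw [deg_eq]; decide +kernel
    · rw [deg_eq]; decide +kernel
  · refine ⟨12, G6, ⟨?_, girth6, lower6⟩, 6, 7, by decide, ?_, ?_⟩
    · rw [inD23_iff]; decide +kernel
    · rw [deg_eq]; decide +kernel
    · rw [deg_eq]; decide +kernel

end Pool.Agent.Results.MP_6c91b3_co.AdjacentDegTwo
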